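import Pool.Agent.K6.H18.AHL.Main

/-!
# Beilinson's arithmetic hard Lefschetz conjecture for abelian varieties

Let `X` be an abelian variety of dimension `n` over a number field with a symmetric ample line bundle,
or more generally a smooth projective variety with an ample line bundle whose Chow motive has a
Künneth decomposition into components `h^j` such that the Lefschetz operator `L` has degree `(1, 2)` for
the codimension and the degree and the powers `L ^ (n - j)` are isomorphisms from `h^j` to
`h^(2n-j)(n-j)`. For abelian varieties these are theorems of Beauville, Deninger, Murre and
Künnemann. Let `W` be the space of the homologically trivial cycles on `X` with rational
coefficients, in all codimensions, and `A i s` the part of codimension `i` in the component of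
degree `2 * i - s`. For abelian varieties this is Beauville's space on which the multiplication by
`m` acts by `m ^ (2 * i - s)`. Then `LefschetzKunneth` holds; for the component with `s = 0` one uses
the hard Lefschetz theorem in cohomology, and the other components are homologically trivial.

Theorem. The conjecture of Beilinson (Q1, for all `i ≤ (n + 1) / 2`) is true for `X` if and only if all
homologically trivial cycles of codimension `i` lie in the component of degree `2 * i - 1`, for all
`i`: that is, `A i s = 0` for all `i` and all `s ≠ 1`.

For abelian varieties the condition consists of Beauville's conjecture that the components with
`s < 0` are zero and that there are no homologically trivial cycles in the component `s = 0`, and of the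
vanishing of the components with `s ≥ 2`, which is expected over number fields only (Bloch and
Beilinson). So Q1 for abelian varieties is a statement on the vanishing of Chow groups, and it
contains for example the vanishing of the Albanese kernel with rational coefficients.

Steps of the proof. On the component `s` the powers of `L` are symmetric about a centre depending on
`s`, and the conjecture asks for the symmetry about the centre of the component `s = 1`. For `s ≤ 0` an
element at or above the middle which is killed by `L` is `(L ^ m) x` with `(L ^ (m + 1)) x = 0`, and
the conjecture gives `x = 0`; one concludes by descending induction. For `s ≥ 2` one shows by
induction on `i ≤ (n + 1) / 2` that `A i s = 0`: the vanishing in codimension `i - 1` gives the vanishing in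
codimension `n + 2 - i` by the conjecture, and so in codimension `i - 2 + s` by the symmetry of the
component; one of these two codimensions is below the middle and at least `i`, and `L` is injective
below the middle.
-/

set_option autoImplicit false

namespace Pool.Agent.Results.MP_e2c9e7_nt.HardLefschetzComponents

open Pool.Agent.K6.H18.AHL

/-- For a variety with a Lefschetz-Künneth decomposition, such as an abelian variety, Beilinson's
arithmetic hard Lefschetz conjecture holds if and only if the homologically trivial cycles of
codimension `i` all lie in the component of degree `2 * i - 1`. -/
theorem result {W : Type*} [AddCommGroup W] [Module ℚ W] (n : ℕ) (A : ℤ → ℤ → Submodule ℚ W)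
    (L : W →ₗ[ℚ] W) (h : LefschetzKunneth n A L) :
    ArithmeticHardLefschetz n A L ↔ ∀ i s : ℤ, s ≠ 1 → A i s = ⊥ :=
  arithmeticHardLefschetz_iff h

end Pool.Agent.Results.MP_e2c9e7_nt.HardLefschetzComponents
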