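import Pool.Agent.K6.H18.AHL.Hodge

/-!
# Beilinson's arithmetic Hodge index conjecture for abelian varieties

Let `X` be an abelian variety of dimension `n` over a number field with a symmetric ample line bundle,
or more generally a smooth projective variety with an ample line bundle whose Chow motive has a
self-dual Künneth decomposition into components `h^j` such that the Lefschetz operator `L` has degree
`(1, 2)` for the codimension and the degree and the powers `L ^ (n - j)` are isomorphisms from `h^j` to
`h^(2n-j)(n-j)`. For abelian varieties these are theorems of Beauville, Deninger, Murre and
Künnemann. Let `W` be the space of the homologically trivial cycles on `X` with rational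
coefficients, in all codimensions, and `A i s` the part of codimension `i` in the component of
degree `2 * i - s`; for abelian varieties, the multiplication by `m` acts on it by
`m ^ (2 * i - s)`. Let `B` be the height pairing of Beilinson and Bloch, which the question presupposes,
extended by zero to all pairs of codimensions. By the projection formula, for the multiplication by
`m` or for the Künneth projectors, it is `Orthogonal`.

Theorem. The Hodge index conjecture of Beilinson (Q2, for all `i ≤ (n + 1) / 2`) is true for `X` if and
only if
* there are no homologically trivial cycles of codimension `i` in the components of degree at least
  `2 * i`, for all `i` (for abelian varieties: Beauville's conjecture), and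
* the inequality is true for the primitive cycles of codimension `i` in the component of degree
  `2 * i - 1`, which is the degree that matters for the intermediate Jacobian.

So for abelian varieties the components with `s ≥ 2`, whose vanishing is expected over number fields
and is a consequence of Q1, play no role in Q2, whereas Beauville's conjecture is a consequence.

Steps of the proof. The cycles `x` and `(L ^ k) x` with `x` in the component `s` are orthogonal unless
`s = 1`, so there are no primitive cycles in the sense of the question in the other components. For
`s ≤ 0` this gives the vanishing by descending induction, starting from the top codimension. For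
`s ≥ 2` it is no condition, since `L ^ (k + 1)` is injective by the hard Lefschetz theorem for this
component.
-/

set_option autoImplicit false

namespace Pool.Agent.Results.MP_e2c9e7_nt.HodgeIndexComponents

open Pool.Agent.K6.H18.AHL

/-- For a variety with a Lefschetz-Künneth decomposition, such as an abelian variety, Beilinson's
arithmetic Hodge index conjecture holds if and only if there are no homologically trivial cycles
of codimension `i` in the components of degree at least `2 * i` and the inequality holds for the
component of degree `2 * i - 1`. -/
theorem result {W : Type*} [AddCommGroup W] [Module ℚ W] (n : ℕ) (A : ℤ → ℤ → Submodule ℚ W)
    (L : W →ₗ[ℚ] W) (B : W →ₗ[ℚ] W →ₗ[ℚ] ℝ) (h : LefschetzKunneth n A L)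
    (ho : Orthogonal n A B) :
    ArithmeticHodgeIndex n A L B ↔ (∀ i s : ℤ, s ≤ 0 → A i s = ⊥) ∧
      ∀ (i : ℤ) (k : ℕ), (k : ℤ) = n + 1 - 2 * i → ∀ x ∈ A i 1, x ≠ 0 → (L ^ (k + 1)) x = 0 →
        0 < (-1 : ℝ) ^ i * B x ((L ^ k) x) :=
  arithmeticHodgeIndex_iff h ho

end Pool.Agent.Results.MP_e2c9e7_nt.HodgeIndexComponents
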