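import Pool.Agent.K6.H99.AHI.Main

/-!
# Beilinson's arithmetic Lefschetz and Hodge index conjectures: reduction to the middle codimension

(1) For one variety `X`: Q1 and Q2 for `X` and `i` are equivalent to the same statements for
`X × P^A` and `i + A` with `k = 1` (one application of `L`) and `k = 0` (no application of `L`).

(2) For a class of polarised varieties closed under products, Q1 and Q2 for all varieties and all `i`
hold if and only if for all `a` in one (any) infinite set: on varieties of dimension `2 * a` each
homologically trivial cycle of codimension `a + 1` is divisible by the polarisation, and on varieties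
of dimension `2 * a - 1` the height pairing on the kernel of `L` in codimension `a` is definite, its
sign being unspecified.

(3) With real coefficients Q2 holds for the class if and only if these kernels contain no nonzero
cycle of height zero.

(4) With real coefficients and finite dimensional spaces of cycles, Q1 and Q2 hold for the class if
and only if, in dimension `2 * a - 1` and codimension `a`, the height pairing is nondegenerate and the
kernel of `L` contains no nonzero cycle of height zero.
-/

set_option autoImplicit false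

namespace Pool.Agent.Results.MP_e2c9e7_nt.ReductionToTheMiddle

open Pool.Agent.K6.H99.AHI

theorem result :
    (∀ (F : Type) [Field F] [Algebra F ℝ], ProjectiveStep F ∧
      ∀ C : Set (Cyc F), Closed C → ∀ S : Set ℕ, S.Infinite → (Both C ↔ Middle C S)) ∧
    ∀ C : Set (Cyc ℝ), Closed C → ∀ S : Set ℕ, S.Infinite →
      (Index C ↔ MiddleAniso C S) ∧
      ((∀ X ∈ C, ∀ i, Module.Finite ℝ (X.Ch i)) →
        (Both C ↔ MiddleNondeg C S ∧ MiddleAniso C S)) := by
  have aniso : ∀ {Z : Cyc ℝ} {a : ℕ}, Z.dim + 1 = 2 * a → HI Z a → Aniso Z a := by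
    intro Z a ha h x hx hx0 hLx h0
    have h1 := h 0 (by omega) x hx hx0 (by rw [zero_add, pow_one]; exact hLx)
    rw [pow_zero, Module.End.one_apply, h0, mul_zero] at h1
    exact lt_irrefl _ h1
  refine ⟨?_, ?_⟩
  · intro F _ _
    refine ⟨fun X Y Z T hG i => ⟨HL_iff_middle T hG, HI_iff_middle T hG⟩, ?_⟩
    intro C hC S hS
    constructor
    · intro h a _
      refine ⟨fun Z hZ hd y hy => ?_, fun Z hZ hd => definite_of_HI hd (h Z hZ a).2⟩
      obtain ⟨x, hx, hxy⟩ := ((h Z hZ a).1 1 (by omega)).2 y (mem_of_eq (by push_cast; ring) hy)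
      exact ⟨x, hx, by simpa using hxy⟩
    · intro h X hX i
      have h2 := HI_of_definite hC hS fun a ha => (h a ha).2
      exact ⟨fun k hk => ⟨inj_of_HI hk (h2 X hX i),
        surj_of_onto hC hS (fun a ha => (h a ha).1) hX hk⟩, h2 X hX i⟩
  · intro C hC S hS
    refine ⟨⟨fun h a _ Z hZ hd => aniso hd (h Z hZ a),
      fun h => HI_of_definite hC hS fun a ha Z hZ hd => definite_of_aniso (h a ha Z hZ hd)⟩, ?_⟩
    intro hf
    constructor
    · intro h
      refine ⟨fun a _ Z hZ hd x hx hx0 => ?_, fun a _ Z hZ hd => aniso hd (h Z hZ a).2⟩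
      by_contra hc
      push Not at hc
      refine hx0 (nondeg_of_both (fun i => (h Z hZ i).1) (fun i => (h Z hZ i).2) a 0 (by omega) x hx
        fun v hv => hc v (mem_of_eq (by simp) hv))
    · intro h X hX i
      have h2 := HI_of_definite hC hS fun a ha Z hZ hd => definite_of_aniso (h.2 a ha Z hZ hd)
      refine ⟨fun k hk => ⟨inj_of_HI hk (h2 X hX i), ?_⟩, h2 X hX i⟩
      refine surj_of_nondeg (hf X hX) (inj_of_HI hk (h2 X hX i)) ?_
      obtain ⟨a, haS, ha⟩ := hS.exists_gt (i + k)
      obtain ⟨d, rfl⟩ := Nat.exists_eq_add_of_lt ha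
      obtain ⟨Y, hY, hd⟩ := hC.dims (k + 2 * (d + 1))
      obtain ⟨Z, hZ, ⟨T⟩, -⟩ := hC.mul X Y hX hY
      exact nondeg_down T hd (h.1 _ haS Z hZ (by rw [T.dim_eq, hd]; omega))

end Pool.Agent.Results.MP_e2c9e7_nt.ReductionToTheMiddle
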