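import Pool.Agent.K6.H99.AHI.Perfect

/-!
# Beilinson's arithmetic Lefschetz and Hodge index conjectures and the weak Lefschetz theorem

(1) If Q1 and Q2 hold for `X` and for a hyperplane section `Y` of `X`, then the weak Lefschetz theorem
holds for homologically trivial cycles: the restriction `Ch^j(X)^0 → Ch^j(Y)^0` and the push-forward
`Ch^(n - j)(Y)^0 → Ch^(n + 1 - j)(X)^0` are bijective for `2 * j < n = dim X`.

(2) For a class of varieties with hyperplane sections, Q1 and Q2 for all the varieties are equivalent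
to this weak Lefschetz theorem together with Q1 for `dim = 2 * a`, `i = a` and Q2 for
`dim = 2 * a - 1`, `i = a`.

(3) With real coefficients and spaces of finite dimension, Q1 and Q2 for the class are equivalent to:
the height pairings are nondegenerate, the restriction maps satisfy the weak Lefschetz theorem, and
Q2 holds for `dim = 2 * a - 1`, `i = a`.
-/

set_option autoImplicit false

namespace Pool.Agent.Results.MP_e2c9e7_nt.WeakLefschetz

open Pool.Agent.K6.H99.AHI

theorem result :
    (∀ (F : Type) [Field F] [Algebra F ℝ],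
      (∀ (X Y : Cyc F) (H : Hyper X Y) (j : ℕ),
        HL X j → HI X (j + 1) → HL Y j → HI Y j → H.WL j) ∧
      ∀ C : Set (Cyc F), HasSections C →
        (Both C ↔ WeakLefschetz C ∧ MiddleHL C ∧ MiddleHI C)) ∧
    ∀ C : Set (Cyc ℝ), HasSections C → (∀ X ∈ C, ∀ i, Module.Finite ℝ (X.Ch i)) →
      (Both C ↔ (∀ X ∈ C, Perfect X) ∧ Restriction C ∧ MiddleHI C) :=
  ⟨fun F _ _ => ⟨fun X Y H j h1 h2 h3 h4 => H.WL_of h1 h2 h3 h4, fun C hC => both_iff hC⟩,
    fun C hC hf => both_iff_perfect hC hf⟩

end Pool.Agent.Results.MP_e2c9e7_nt.WeakLefschetz
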